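import Mathlib

/-!
Varieties of complexes and symbolic blowup algebras.
-/

set_option autoImplicit false

namespace Pool.Agent.MP_e85a6b_ag

open Polynomial

/-- The ideal `I_j(A)` generated by the `j × j` minors of a matrix `A`. -/
def minors {R : Type*} [CommRing R] {a b : ℕ} (j : ℕ) (A : Matrix (Fin a) (Fin b) R) : Ideal R :=
  Ideal.span {x | ∃ (f : Fin j ↪ Fin a) (g : Fin j ↪ Fin b), x = (A.submatrix f g).det}

/-- The polynomial ring `K[Y, Z]` in the entries of an `m × t` matrix and a `t × n` matrix. -/
abbrev PolyRing (K : Type*) [Field K] (m t n : ℕ) : Type _ :=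
  MvPolynomial ((Fin m × Fin t) ⊕ (Fin t × Fin n)) K

/-- The generic `m × t` matrix `Y`. -/
noncomputable def matY (K : Type*) [Field K] (m t n : ℕ) :
    Matrix (Fin m) (Fin t) (PolyRing K m t n) :=
  Matrix.of fun i j => MvPolynomial.X (Sum.inl (i, j))

/-- The generic `t × n` matrix `Z`. -/
noncomputable def matZ (K : Type*) [Field K] (m t n : ℕ) :
    Matrix (Fin t) (Fin n) (PolyRing K m t n) :=
  Matrix.of fun j k => MvPolynomial.X (Sum.inr (j, k))

/-- The ideal `I_{r+1}(Y) + I_{s+1}(Z) + I_1(YZ)` of the variety of complexes. -/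
noncomputable def complexIdeal (K : Type*) [Field K] (m t n r s : ℕ) : Ideal (PolyRing K m t n) :=
  minors (r + 1) (matY K m t n) + minors (s + 1) (matZ K m t n) +
    minors 1 (matY K m t n * matZ K m t n)

/-- The symbolic power `P^k R_P ∩ R` of a prime ideal. -/
noncomputable def symbolicPower {R : Type*} [CommRing R] (P : Ideal R) (hP : P.IsPrime) (k : ℕ) :
    Ideal R :=
  ((P ^ k).map (algebraMap R (Localization.AtPrime P))).comap
    (algebraMap R (Localization.AtPrime P))

theorem mul_mem_symbolicPower {R : Type*} [CommRing R] {P : Ideal R} {hP : P.IsPrime} {a b : ℕ}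
    {x y : R} (hx : x ∈ symbolicPower P hP a) (hy : y ∈ symbolicPower P hP b) :
    x * y ∈ symbolicPower P hP (a + b) := by
  unfold symbolicPower at *
  rw [Ideal.mem_comap] at *
  rw [map_mul, pow_add, Ideal.map_mul]
  exact Ideal.mul_mem_mul hx hy

theorem symbolicPower_zero {R : Type*} [CommRing R] (P : Ideal R) (hP : P.IsPrime) :
    symbolicPower P hP 0 = ⊤ := by
  simp [symbolicPower, Ideal.map_top]

/-- The symbolic Rees algebra `⊕ P^(k) T^k`, as a subalgebra of `R[T]`. -/
noncomputable def symbolicRees {R : Type*} [CommRing R] (P : Ideal R) (hP : P.IsPrime) :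
    Subalgebra R R[X] where
  carrier := {f | ∀ k, f.coeff k ∈ symbolicPower P hP k}
  mul_mem' := by
    intro f g hf hg k
    rw [coeff_mul]
    refine Ideal.sum_mem _ fun x hx => ?_
    rw [← Finset.HasAntidiagonal.mem_antidiagonal.1 hx]
    exact mul_mem_symbolicPower (hf _) (hg _)
  add_mem' := by
    intro f g hf hg k
    rw [coeff_add]
    exact Ideal.add_mem _ (hf k) (hg k)
  algebraMap_mem' := by
    intro r k
    rw [Polynomial.algebraMap_apply, coeff_C]
    split_ifs with h
    · rw [h, symbolicPower_zero]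
      trivial
    · exact Ideal.zero_mem _

/-- The ideal `⊕ P^(k+1) T^k` of the symbolic Rees algebra. -/
noncomputable def shiftIdeal {R : Type*} [CommRing R] (P : Ideal R) (hP : P.IsPrime) :
    Ideal (symbolicRees P hP) where
  carrier := {f | ∀ k, (f : R[X]).coeff k ∈ symbolicPower P hP (k + 1)}
  add_mem' := by
    intro f g hf hg k
    rw [Subalgebra.coe_add, coeff_add]
    exact Ideal.add_mem _ (hf k) (hg k)
  zero_mem' := by
    intro k
    simp
  smul_mem' := by
    intro f g hg k
    rw [smul_eq_mul, Subalgebra.coe_mul, coeff_mul]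
    refine Ideal.sum_mem _ fun x hx => ?_
    rw [← Finset.HasAntidiagonal.mem_antidiagonal.1 hx, add_assoc]
    exact mul_mem_symbolicPower (f.2 _) (hg _)

/-- The symbolic associated graded algebra `⊕ P^(k) / P^(k+1)`, as the quotient of the symbolic
Rees algebra by `⊕ P^(k+1) T^k`. -/
abbrev SymbolicGraded {R : Type*} [CommRing R] (P : Ideal R) (hP : P.IsPrime) : Type _ :=
  symbolicRees P hP ⧸ shiftIdeal P hP

end Pool.Agent.MP_e85a6b_ag
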